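import Pool.Agent.W99.Tw.Crit
import Pool.Agent.W99.Dom.Main

set_option autoImplicit false
set_option linter.unusedSectionVars false

/-!
MP_257582_lc. Coverings by balls and by sets of bounded weak diameter.
-/

namespace Pool.Agent.W99.Tw

open Finset
open Pool.Agent.H119R2.Kp (GP PV pve_map_adj)
open Pool.Agent.H119R2.Kp.RelAux (PV_iff)
open Pool.Agent.TH669.KP (GR GR_adj sgn bit bit_pos bit_neg bit_congr sum_sgn)

/-- the distance of `u` and `v` is at most `r` -/
def Near {V : Type} (G : SimpleGraph V) (r : ℕ∞) (u v : V) : Prop :=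
  ∃ p : G.Walk u v, (p.length : ℕ∞) ≤ r

/-- at most `k` balls of radius `r` cover the vertices -/
def CovB {n : ℕ} (r : ℕ∞) (k : ℕ) (G : SimpleGraph (Fin n)) : Prop :=
  ∃ D : Finset (Fin n), D.card ≤ k ∧ ∀ v, ∃ w ∈ D, Near G r w v

/-- the vertices can be partitioned into `k` sets such that any two vertices in the same set have
distance at most `d` -/
def CovD {n : ℕ} (d : ℕ∞) (k : ℕ) (G : SimpleGraph (Fin n)) : Prop :=
  ∃ f : Fin n → Fin k, ∀ u v, f u = f v → Near G d u v

theorem Near.mono {V : Type} {G H : SimpleGraph V} (h : G ≤ H) {r : ℕ∞} {u v : V}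
    (hn : Near G r u v) : Near H r u v := by
  obtain ⟨p, hp⟩ := hn
  exact ⟨p.mapLe h, by simpa using hp⟩

theorem Near.map {V W : Type} {G : SimpleGraph V} (e : V ≃ W) {r : ℕ∞} {u v : V}
    (hn : Near G r u v) : Near (G.map e.toEmbedding) r (e u) (e v) := by
  obtain ⟨p, hp⟩ := hn
  let f : G →g G.map e.toEmbedding := ⟨e, fun {a b} h => by
    rw [pve_map_adj]
    simpa using h⟩
  exact ⟨p.map f, by simpa using hp⟩

theorem walk_twin {V : Type} {G : SimpleGraph V} {B : Set V}
    (hB : ∀ u ∈ B, ∀ v ∈ B, ∀ w, G.Adj u w → G.Adj v w) {u v : V} (p : (G ⊔ cliq B).Walk u v) :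
    (∃ q : G.Walk u v, q.length ≤ p.length) ∨ (u ∈ B ∧ v ∈ B ∧ 1 ≤ p.length) := by
  induction p with
  | nil => exact Or.inl ⟨SimpleGraph.Walk.nil, le_rfl⟩
  | @cons u x v h p ih =>
    rw [SimpleGraph.Walk.length_cons]
    rcases h with h | h
    · rcases ih with ⟨q, hq⟩ | ⟨h1, h2, h3⟩
      · exact Or.inl ⟨SimpleGraph.Walk.cons h q, by
          rw [SimpleGraph.Walk.length_cons]; omega⟩
      · have h4 : G.Adj u v := (hB x h1 v h2 u h.symm).symm
        exact Or.inl ⟨SimpleGraph.Walk.cons h4 SimpleGraph.Walk.nil, by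
          rw [SimpleGraph.Walk.length_cons, SimpleGraph.Walk.length_nil]; omega⟩
    · rcases ih with ⟨q, hq⟩ | ⟨h1, h2, h3⟩
      · cases q with
        | nil => exact Or.inr ⟨h.2.1, h.2.2, by omega⟩
        | @cons _ y _ h5 q' =>
          have h6 : G.Adj u y := hB x h.2.2 u h.2.1 y h5
          refine Or.inl ⟨SimpleGraph.Walk.cons h6 q', ?_⟩
          rw [SimpleGraph.Walk.length_cons] at hq ⊢
          omega
      · exact Or.inr ⟨h.2.1, h2, by omega⟩

theorem Near.twin {V : Type} {G : SimpleGraph V} {B : Set V} {r : ℕ∞} (hr : 2 ≤ r)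
    (hB : ∀ u ∈ B, ∀ v ∈ B, ∀ w, G.Adj u w → G.Adj v w) (hB' : ∃ u ∈ B, ∃ w, G.Adj u w) {u v : V}
    (h : Near (G ⊔ cliq B) r u v) : Near G r u v := by
  obtain ⟨p, hp⟩ := h
  rcases walk_twin hB p with ⟨q, hq⟩ | ⟨h1, h2, h3⟩
  · exact ⟨q, le_trans (by exact_mod_cast hq) hp⟩
  · obtain ⟨x, hx, w, hw⟩ := hB'
    have h4 := hB x hx u h1 w hw
    have h5 := hB x hx v h2 w hw
    refine ⟨SimpleGraph.Walk.cons h4 (SimpleGraph.Walk.cons h5.symm SimpleGraph.Walk.nil), ?_⟩
    simpa [SimpleGraph.Walk.length_cons] using hr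

theorem CovB.twin {n k : ℕ} {r : ℕ∞} (hr : 2 ≤ r) :
    TwinInv (fun G : SimpleGraph (Fin n) => CovB r k G) := by
  rintro G B hB hB' ⟨D, hD, h⟩
  refine ⟨D, hD, fun v => ?_⟩
  obtain ⟨w, hw, h1⟩ := h v
  exact ⟨w, hw, h1.twin hr hB hB'⟩

theorem CovD.twin {n k : ℕ} {r : ℕ∞} (hr : 2 ≤ r) :
    TwinInv (fun G : SimpleGraph (Fin n) => CovD r k G) := by
  rintro G B hB hB' ⟨f, h⟩
  exact ⟨f, fun u v huv => (h u v huv).twin hr hB hB'⟩

theorem CovB.mono {n k : ℕ} {r : ℕ∞} {G H : SimpleGraph (Fin n)} (hGH : G ≤ H)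
    (h : CovB r k G) : CovB r k H := by
  obtain ⟨D, hD, h⟩ := h
  refine ⟨D, hD, fun v => ?_⟩
  obtain ⟨w, hw, h1⟩ := h v
  exact ⟨w, hw, h1.mono hGH⟩

theorem CovD.mono {n k : ℕ} {r : ℕ∞} {G H : SimpleGraph (Fin n)} (hGH : G ≤ H)
    (h : CovD r k G) : CovD r k H := by
  obtain ⟨f, h⟩ := h
  exact ⟨f, fun u v huv => (h u v huv).mono hGH⟩

theorem CovB.map {n k : ℕ} {r : ℕ∞} (σ : Fin n ≃ Fin n) (G : SimpleGraph (Fin n))
    (h : CovB r k G) : CovB r k (G.map σ.toEmbedding) := by
  obtain ⟨D, hD, h⟩ := h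
  refine ⟨D.map σ.toEmbedding, by rw [Finset.card_map]; exact hD, fun v => ?_⟩
  obtain ⟨w, hw, h1⟩ := h (σ.symm v)
  refine ⟨σ w, Finset.mem_map.2 ⟨w, hw, rfl⟩, ?_⟩
  have h2 := h1.map σ
  rwa [Equiv.apply_symm_apply] at h2

theorem CovD.map {n k : ℕ} {r : ℕ∞} (σ : Fin n ≃ Fin n) (G : SimpleGraph (Fin n))
    (h : CovD r k G) : CovD r k (G.map σ.toEmbedding) := by
  obtain ⟨f, h⟩ := h
  refine ⟨fun x => f (σ.symm x), fun u v huv => ?_⟩
  have h2 := (h _ _ huv).map σ
  rwa [Equiv.apply_symm_apply, Equiv.apply_symm_apply] at h2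

section parts

variable {n : ℕ} {ι : Type} [Fintype ι] [DecidableEq ι] {π : Fin n → ι}

theorem CovB.clique {r : ℕ∞} (hr : 2 ≤ r) (hπ : Function.Surjective π) :
    CovB r (Fintype.card ι) (Cl π Set.univ) := by
  classical
  choose g hg using hπ
  refine ⟨univ.image g, ?_, fun v => ⟨g (π v), Finset.mem_image_of_mem _ (Finset.mem_univ _), ?_⟩⟩
  · refine Finset.card_image_le.trans ?_
    rw [Finset.card_univ]
  · by_cases h : g (π v) = v
    · rw [h]
      exact ⟨SimpleGraph.Walk.nil, by simp⟩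
    · have h1 : (Cl π Set.univ).Adj (g (π v)) v := ⟨h, hg _, Set.mem_univ _⟩
      refine ⟨SimpleGraph.Walk.cons h1 SimpleGraph.Walk.nil, ?_⟩
      refine le_trans ?_ hr
      simp [SimpleGraph.Walk.length_cons]

theorem CovD.clique {r : ℕ∞} (hr : 2 ≤ r) :
    CovD r (Fintype.card ι) (Cl π Set.univ) := by
  classical
  refine ⟨fun v => Fintype.equivFin ι (π v), fun u v huv => ?_⟩
  have h0 : π u = π v := (Fintype.equivFin ι).injective huv
  by_cases h : u = v
  · rw [h]
    exact ⟨SimpleGraph.Walk.nil, by simp⟩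
  · have h1 : (Cl π Set.univ).Adj u v := ⟨h, h0, Set.mem_univ _⟩
    refine ⟨SimpleGraph.Walk.cons h1 SimpleGraph.Walk.nil, ?_⟩
    refine le_trans ?_ hr
    simp [SimpleGraph.Walk.length_cons]

/-- the component of a vertex after the clique `i` has been removed -/
def lab (π : Fin n → ι) (i : ι) (v : Fin n) : ι ⊕ Fin n := if π v = i then .inr v else .inl (π v)

theorem lab_near {i : ι} {r : ℕ∞} {u v : Fin n} (h : Near (Cl π {i}ᶜ) r u v) :
    lab π i u = lab π i v := by
  obtain ⟨p, -⟩ := h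
  induction p with
  | nil => rfl
  | cons h p ih =>
    rw [← ih]
    obtain ⟨h1, h2, h3⟩ := h
    have h4 : ¬ π _ = i := h3
    unfold lab
    rw [if_neg h4, if_neg (by rw [← h2]; exact h4), h2]

theorem card_lab (i : ι) (hπ : Function.Surjective π) (hi : 2 ≤ Fintype.card {x // π x = i}) :
    Fintype.card ι + 1 ≤ (univ.image (lab π i)).card := by
  classical
  have h1 : (univ.erase i).image Sum.inl ∪ (univ.filter fun x => π x = i).image Sum.inr ⊆
      univ.image (lab π i) := by
    intro l hl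
    rw [Finset.mem_union, Finset.mem_image, Finset.mem_image] at hl
    rw [Finset.mem_image]
    rcases hl with ⟨j, hj, rfl⟩ | ⟨x, hx, rfl⟩
    · obtain ⟨v, hv⟩ := hπ j
      refine ⟨v, Finset.mem_univ _, ?_⟩
      unfold lab
      rw [hv, if_neg (Finset.ne_of_mem_erase hj)]
    · refine ⟨x, Finset.mem_univ _, ?_⟩
      unfold lab
      rw [if_pos (Finset.mem_filter.1 hx).2]
  refine le_trans ?_ (Finset.card_le_card h1)
  rw [Finset.card_union_of_disjoint, Finset.card_image_of_injective _ Sum.inl_injective,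
    Finset.card_image_of_injective _ Sum.inr_injective, Finset.card_erase_of_mem (Finset.mem_univ _),
    Finset.card_univ]
  · rw [Fintype.card_subtype] at hi
    have : 0 < Fintype.card ι := Fintype.card_pos_iff.2 ⟨i⟩
    omega
  · rw [Finset.disjoint_left]
    intro l hl hl'
    rw [Finset.mem_image] at hl hl'
    obtain ⟨j, -, rfl⟩ := hl
    obtain ⟨x, -, hx⟩ := hl'
    cases hx

theorem CovB.not_clique {r : ℕ∞} (i : ι) (hπ : Function.Surjective π)
    (hi : 2 ≤ Fintype.card {x // π x = i}) : ¬ CovB r (Fintype.card ι) (Cl π {i}ᶜ) := by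
  classical
  rintro ⟨D, hD, h⟩
  have h1 : univ.image (lab π i) ⊆ D.image (lab π i) := by
    intro l hl
    rw [Finset.mem_image] at hl ⊢
    obtain ⟨v, -, rfl⟩ := hl
    obtain ⟨w, hw, h2⟩ := h v
    exact ⟨w, hw, lab_near h2⟩
  have h2 := (card_lab i hπ hi).trans (Finset.card_le_card h1)
  have h3 := h2.trans Finset.card_image_le
  omega

theorem CovD.not_clique {r : ℕ∞} (i : ι) (hπ : Function.Surjective π)
    (hi : 2 ≤ Fintype.card {x // π x = i}) : ¬ CovD r (Fintype.card ι) (Cl π {i}ᶜ) := by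
  classical
  rintro ⟨f, h⟩
  have h1 : ∀ k : Fin (Fintype.card ι), ∃ l : ι ⊕ Fin n, ∀ v, f v = k → lab π i v = l := by
    intro k
    by_cases hk : ∃ v, f v = k
    · obtain ⟨v, hv⟩ := hk
      exact ⟨lab π i v, fun u hu => lab_near (h u v (hu.trans hv.symm))⟩
    · have : Nonempty (ι ⊕ Fin n) := ⟨.inl i⟩
      exact ⟨Classical.arbitrary _, fun v hv => absurd ⟨v, hv⟩ hk⟩
  choose g hg using h1
  have h2 : univ.image (lab π i) ⊆ univ.image g := by
    intro l hl
    rw [Finset.mem_image] at hl ⊢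
    obtain ⟨v, -, rfl⟩ := hl
    exact ⟨f v, Finset.mem_univ _, (hg _ v rfl).symm⟩
  have h3 := (card_lab i hπ hi).trans (Finset.card_le_card h2)
  have h4 := h3.trans Finset.card_image_le
  rw [Finset.card_univ, Fintype.card_fin] at h4
  omega

end parts

/-- the representation of `n` as a sum of powers of two, given by the digits -/
theorem rep_digits (n : ℕ) : ∃ (ι : Type) (_ : Fintype ι) (_ : DecidableEq ι) (a : ι → ℕ),
    Fintype.card ι = (Nat.digits 2 n).sum ∧ ∑ i, 2 ^ a i = n ∧
    (∀ i j, a i = 0 → a j = 0 → i = j) := by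
  induction n using Nat.strong_induction_on with
  | _ n ih =>
    by_cases hn : n = 0
    · subst hn
      exact ⟨Empty, inferInstance, inferInstance, fun x => x.elim, by simp, by simp,
        fun x => x.elim⟩
    · obtain ⟨ι, _, _, a, h1, h2, h3⟩ := ih (n / 2) (Nat.div_lt_self (Nat.pos_of_ne_zero hn)
        (by norm_num))
      rw [Nat.digits_def' (by norm_num) (Nat.pos_of_ne_zero hn), List.sum_cons]
      rcases Nat.mod_two_eq_zero_or_one n with h4 | h4
      · refine ⟨ι, inferInstance, inferInstance, fun i => a i + 1, by omega, ?_, ?_⟩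
        · simp only [pow_succ]
          rw [← Finset.sum_mul, h2]
          omega
        · intro i j hi _
          cases hi
      · refine ⟨Option ι, inferInstance, inferInstance,
          fun o => match o with | none => 0 | some i => a i + 1, ?_, ?_, ?_⟩
        · rw [Fintype.card_option, h1, h4]
          omega
        · rw [Fintype.sum_option]
          simp only [pow_succ, pow_zero]
          rw [← Finset.sum_mul, h2]
          omega
        · rintro (_ | i) (_ | j) hi hj
          · rfl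
          · cases hj
          · cases hi
          · cases hi

/-- every number of parts between the sum of the digits and `(n + 1) / 2` is possible -/
theorem rep_all (n k : ℕ) (h1 : (Nat.digits 2 n).sum ≤ k) (h2 : 2 * k ≤ n + 1) :
    ∃ (ι : Type) (_ : Fintype ι) (_ : DecidableEq ι) (a : ι → ℕ),
    Fintype.card ι = k ∧ ∑ i, 2 ^ a i = n ∧ (∀ i j, a i = 0 → a j = 0 → i = j) := by
  induction k with
  | zero =>
    obtain ⟨ι, i1, i2, a, h3, h4, h5⟩ := rep_digits n
    exact ⟨ι, i1, i2, a, by omega, h4, h5⟩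
  | succ k ih =>
    rcases Nat.lt_or_ge k (Nat.digits 2 n).sum with h | h
    · obtain ⟨ι, i1, i2, a, h3, h4, h5⟩ := rep_digits n
      exact ⟨ι, i1, i2, a, by omega, h4, h5⟩
    · obtain ⟨ι, i1, i2, a, h3, h4, h5⟩ := ih h (by omega)
      obtain ⟨i0, hi0⟩ : ∃ i, 2 ≤ a i := by
        by_contra hcon
        push Not at hcon
        have h6 : ∀ i, 2 ^ a i ≤ 2 := by
          intro i
          have h7 : a i ≤ 1 := by have := hcon i; omega
          calc 2 ^ a i ≤ 2 ^ 1 := Nat.pow_le_pow_right (by norm_num) h7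
            _ = 2 := by norm_num
        have h8 : ∑ i, 2 ^ a i ≤ ∑ _i : ι, 2 := Finset.sum_le_sum fun i _ => h6 i
        rw [h4, Finset.sum_const, Finset.card_univ, h3, smul_eq_mul] at h8
        omega
      refine ⟨Option ι, inferInstance, inferInstance, fun o => match o with
        | none => a i0 - 1
        | some i => if i = i0 then a i0 - 1 else a i, ?_, ?_, ?_⟩
      · rw [Fintype.card_option, h3]
      · rw [Fintype.sum_option]
        simp only
        rw [← Finset.add_sum_erase univ _ (Finset.mem_univ i0), if_pos rfl]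
        rw [← Finset.add_sum_erase univ (fun i => 2 ^ a i) (Finset.mem_univ i0)] at h4
        have h6 : ∑ x ∈ univ.erase i0, 2 ^ (if x = i0 then a i0 - 1 else a x) =
            ∑ x ∈ univ.erase i0, 2 ^ a x := by
          refine Finset.sum_congr rfl fun x hx => ?_
          rw [if_neg (Finset.ne_of_mem_erase hx)]
        rw [h6]
        have h7 : 2 ^ a i0 = 2 ^ (a i0 - 1) + 2 ^ (a i0 - 1) := by
          rw [← Nat.two_pow_pred_add_two_pow_pred (by omega : 0 < a i0)]
        omega
      · rintro (_ | i) (_ | j) hi hj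
        · rfl
        · simp only at hi
          omega
        · simp only at hj
          omega
        · simp only at hi hj
          split_ifs at hi with h6
          · omega
          · split_ifs at hj with h7
            · omega
            · rw [h5 i j hi hj]

/-- the map to the parts -/
theorem exists_part {n p : ℕ} {ι : Type} [Fintype ι] [DecidableEq ι] (a : ι → ℕ)
    (h : ∑ i, p ^ a i = n) : ∃ π : Fin n → ι, ∀ i, Fintype.card {x // π x = i} = p ^ a i := by
  classical
  have h1 : Fintype.card (Σ i, Fin (p ^ a i)) = n := by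
    rw [Fintype.card_sigma]
    simpa using h
  let e : (Σ i, Fin (p ^ a i)) ≃ Fin n := Fintype.equivFinOfCardEq h1
  refine ⟨fun x => (e.symm x).1, fun i => ?_⟩
  have e1 : {x : Fin n // (e.symm x).1 = i} ≃ Fin (p ^ a i) :=
    (e.symm.subtypeEquiv (fun x => Iff.rfl)).trans
      (Equiv.sigmaSubtype i)
  rw [Fintype.card_congr e1, Fintype.card_fin]

end Pool.Agent.W99.Tw
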