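import Pool.Agent.W99.Tw.Model

set_option autoImplicit false
set_option linter.unusedSectionVars false

/-!
MP_257582_lc. A criterion for properties that do not distinguish an independent set of twins from a
clique of twins.
-/

namespace Pool.Agent.W99.Tw

open Finset
open Pool.Agent.H119R2.Kp (GP PV pve_map_adj)
open Pool.Agent.H119R2.Kp.RelAux (PV_iff)
open Pool.Agent.TH669.KP (GR GR_adj rel_orb sgn bit bit_pos bit_neg bit_congr sum_split sgn_sum
  toggle_zero)

section rel

variable {ι : Type} [Fintype ι] [DecidableEq ι] (A : ι → Type) [∀ i, DecidableEq (A i)]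
  [∀ i, Fintype (A i)] [∀ i, AddCommGroup (A i)] (c : ∀ i, A i ≃+ A i)

noncomputable instance instFN : Fintype {i : ι // Nontrivial (A i)} := Fintype.ofFinite _

/-- the graph of a configuration -/
abbrev GS (χ : Jl A → Bool) : SimpleGraph (Σ i, A i) :=
  GR (orbS A) (orbS_symm A) (orbS_self A) χ

theorem relationS {p : ℕ} [Fact p.Prime] (htor : ∀ i, ∀ x : A i, p • x = 0)
    (htr : ∀ i, ∀ x y : A i, x ≠ 0 → y ≠ 0 → ∃ k : ℕ, (c i)^[k] x = y) {n q : ℕ}
    {Q : SimpleGraph (Fin n) → Prop} (hQ : GP n q Q) (hV : Fintype.card (Σ i, A i) = n)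
    (hq : q < n.choose 2) :
    ∑ χ : Jl A → Bool, sgn χ * bit (PV Q (Σ i, A i) (GS A χ)) = 0 := by
  refine rel_orb hQ (V := Σ i, A i) hV p (tr A) (cS A c) (tr_comm A) ?_ ?_ (orbS A)
    (orbS_symm A) (orbS_self A) (orbS_ne_none A) (orbS_tr A) (orbS_cS A c) (orbS_exists A)
    (orbS_trans A c htr) hq
  · intro τ
    ext v : 1
    obtain ⟨i, x⟩ := v
    rw [tr_pow, htor, add_zero]
    rfl
  · intro τ
    rw [cS_conj]
    exact Subgroup.subset_closure (Set.mem_range_self _)

end rel

/-- the complete graph on `B` -/
def cliq {V : Type} (B : Set V) : SimpleGraph V where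
  Adj u v := u ≠ v ∧ u ∈ B ∧ v ∈ B
  symm := ⟨fun _ _ h => ⟨h.1.symm, h.2.2, h.2.1⟩⟩
  loopless := ⟨fun _ h => h.1 rfl⟩

/-- `P` does not distinguish a set of twins with a neighbour from a clique -/
def TwinInv {n : ℕ} (P : SimpleGraph (Fin n) → Prop) : Prop :=
  ∀ (G : SimpleGraph (Fin n)) (B : Set (Fin n)),
    (∀ u ∈ B, ∀ v ∈ B, ∀ w, G.Adj u w → G.Adj v w) → (∃ u ∈ B, ∃ w, G.Adj u w) →
    P (G ⊔ cliq B) → P G

/-- the disjoint union of the cliques on the fibres of `π` over the elements of `S`, and isolated
vertices -/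
def Cl {n : ℕ} {ι : Type} (π : Fin n → ι) (S : Set ι) : SimpleGraph (Fin n) where
  Adj u v := u ≠ v ∧ π u = π v ∧ π u ∈ S
  symm := ⟨fun _ _ h => ⟨h.1.symm, h.2.1.symm, h.2.1 ▸ h.2.2⟩⟩
  loopless := ⟨fun _ h => h.1 rfl⟩

theorem crit {n p q : ℕ} [Fact p.Prime] {ι : Type} [Fintype ι] [DecidableEq ι] (π : Fin n → ι)
    (a : ι → ℕ) (hcard : ∀ i, Fintype.card {x // π x = i} = p ^ a i)
    (ha : ∀ i j, a i = 0 → a j = 0 → i = j) {P : SimpleGraph (Fin n) → Prop} (hP : GP n q P)
    (hq : q < n.choose 2) (htw : TwinInv P) (hX : P (Cl π Set.univ))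
    (hXi : ∀ i, a i ≠ 0 → ¬ P (Cl π {i}ᶜ)) : False := by
  classical
  let B : ∀ i, Blk p (p ^ a i) := fun i => Classical.choice (exists_blk p (a i))
  let A : ι → Type := fun i => (B i).A
  let _ : ∀ i, AddCommGroup (A i) := fun i => (B i).grp
  let _ : ∀ i, Fintype (A i) := fun i => (B i).fin
  let c : ∀ i, A i ≃+ A i := fun i => (B i).c
  have hAc : ∀ i, Fintype.card (A i) = p ^ a i := fun i => (B i).card
  have hcd : ∀ i, Fintype.card (A i) = Fintype.card {x // π x = i} := fun i =>
    (hAc i).trans (hcard i).symm
  let e : (Σ i, A i) ≃ Fin n :=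
    (Equiv.sigmaCongrRight fun i => Fintype.equivOfCardEq (hcd i)).trans (Equiv.sigmaFiberEquiv π)
  have he : ∀ v, π (e v) = v.1 := by
    intro v
    exact (Fintype.equivOfCardEq (hcd v.1) v.2).2
  have he' : ∀ u, (e.symm u).1 = π u := by
    intro u
    rw [← he, Equiv.apply_symm_apply]
  have hV : Fintype.card (Σ i, A i) = n := by
    rw [Fintype.card_congr e, Fintype.card_fin]
  have hnt : ∀ i, Nontrivial (A i) ↔ a i ≠ 0 := by
    intro i
    rw [← Fintype.one_lt_card_iff_nontrivial, hAc]
    constructor
    · intro h h2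
      rw [h2, pow_zero] at h
      exact lt_irrefl _ h
    · intro h
      exact Nat.one_lt_pow h (Fact.out : p.Prime).one_lt
  have hr := relationS A c (p := p) (fun i => (B i).tors) (fun i => (B i).trans) hP hV hq
  rw [sum_split] at hr
  have hadjS : ∀ (ξ : {e : Sym2 ι // ¬ e.IsDiag} → Bool) (κ : {i : ι // Nontrivial (A i)} → Bool)
      (i : ι) (x y : A i), (GS A (Sum.elim ξ κ)).Adj ⟨i, x⟩ ⟨i, y⟩ ↔
        ∃ h : x ≠ y, κ ⟨i, ⟨x, y, h⟩⟩ = true := by
    intro ξ κ i x y
    rw [GR_adj]
    by_cases hxy : x = y
    · subst hxy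
      rw [orbS_self]
      constructor
      · rintro ⟨j, hj, _⟩
        cases hj
      · rintro ⟨h, _⟩
        exact absurd rfl h
    · rw [orbS_same A hxy]
      constructor
      · rintro ⟨j, hj, hχ⟩
        simp only [Option.some.injEq] at hj
        subst hj
        exact ⟨hxy, hχ⟩
      · rintro ⟨h, hχ⟩
        exact ⟨_, rfl, hχ⟩
  have hadjC : ∀ (ξ : {e : Sym2 ι // ¬ e.IsDiag} → Bool) (κ : {i : ι // Nontrivial (A i)} → Bool)
      (v w : Σ i, A i) (h : v.1 ≠ w.1), (GS A (Sum.elim ξ κ)).Adj v w ↔
        ξ ⟨s(v.1, w.1), by simpa using h⟩ = true := by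
    intro ξ κ v w h
    rw [GR_adj, orbS_cross A h]
    constructor
    · rintro ⟨j, hj, hχ⟩
      simp only [Option.some.injEq] at hj
      subst hj
      exact hχ
    · intro hχ
      exact ⟨_, rfl, hχ⟩
  rw [Finset.sum_eq_single (fun _ => false)] at hr
  · have h1 : ∀ κ : {i : ι // Nontrivial (A i)} → Bool,
        sgn (Sum.elim (fun _ : {e : Sym2 ι // ¬ e.IsDiag} => false) κ) *
          bit (PV P (Σ i, A i) (GS A (Sum.elim (fun _ => false) κ))) =
        if κ = (fun _ => true) then
          sgn (Sum.elim (fun _ : {e : Sym2 ι // ¬ e.IsDiag} => false) κ) else 0 := by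
      intro κ
      by_cases hκ : κ = fun _ => true
      · rw [if_pos hκ, bit_pos, mul_one]
        refine ⟨e, ?_⟩
        have h2 : (GS A (Sum.elim (fun _ => false) κ)).map e.toEmbedding = Cl π Set.univ := by
          ext u v
          rw [pve_map_adj]
          rcases hu : e.symm u with ⟨i, x⟩
          rcases hv : e.symm v with ⟨j, y⟩
          have hiu : π u = i := by rw [← he', hu]
          have hjv : π v = j := by rw [← he', hv]
          by_cases hij : i = j
          · subst hij
            rw [hadjS]
            constructor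
            · rintro ⟨hxy, -⟩
              refine ⟨fun h => hxy ?_, hiu.trans hjv.symm, Set.mem_univ _⟩
              rw [h, hv] at hu
              simpa using hu.symm
            · rintro ⟨h, -⟩
              refine ⟨fun hxy => h ?_, by rw [hκ]⟩
              apply e.symm.injective
              rw [hu, hv, hxy]
          · rw [hadjC _ _ _ _ hij]
            constructor
            · intro h
              cases h
            · rintro ⟨-, h, -⟩
              exact absurd (hiu.symm.trans (h.trans hjv)) hij
        rw [h2]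
        exact hX
      · rw [if_neg hκ, bit_neg, mul_zero]
        intro hPV
        rw [PV_iff hP e] at hPV
        obtain ⟨i, hi⟩ : ∃ i, κ i = false := by
          by_contra hcon
          push Not at hcon
          exact hκ (funext fun i => by simpa using hcon i)
        obtain ⟨i, hi'⟩ := i
        refine hXi i ((hnt i).1 hi') (hP.mono _ _ ?_ hPV)
        intro u v huv
        rw [pve_map_adj] at huv
        rcases hu : e.symm u with ⟨j, x⟩
        rcases hv : e.symm v with ⟨j', y⟩
        rw [hu, hv] at huv
        have hiu : π u = j := by rw [← he', hu]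
        have hjv : π v = j' := by rw [← he', hv]
        by_cases hij : j = j'
        · subst hij
          have huv' := huv.ne
          rw [hadjS] at huv
          obtain ⟨h3, h4⟩ := huv
          refine ⟨fun h => huv' ?_, hiu.trans hjv.symm, ?_⟩
          · rw [← hu, ← hv, h]
          · rw [hiu]
            rintro (h5 : j = i)
            subst h5
            rw [hi] at h4
            cases h4
        · rw [hadjC _ _ _ _ hij] at huv
          cases huv
    rw [Finset.sum_congr rfl fun κ _ => h1 κ, Finset.sum_ite_eq' univ,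
      if_pos (Finset.mem_univ _)] at hr
    unfold sgn at hr
    rw [Finset.prod_eq_zero_iff] at hr
    obtain ⟨j, -, hj⟩ := hr
    split_ifs at hj <;> norm_num at hj
  · intro ξ _ hξ
    obtain ⟨l, hl⟩ : ∃ l, ξ l = true := by
      by_contra hcon
      push Not at hcon
      exact hξ (funext fun l => by simpa using hcon l)
    have h1 : ∃ i j, ∃ h : ¬ (s(i, j) : Sym2 ι).IsDiag, ξ ⟨s(i, j), h⟩ = true ∧ a i ≠ 0 := by
      obtain ⟨l, hl'⟩ := l
      induction l using Sym2.ind with
      | _ i j =>
        have hij : ¬ i = j := by simpa using hl'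
        by_cases hi : a i = 0
        · have hj : a j ≠ 0 := fun hj => hij (ha i j hi hj)
          have h3 : (s(j, i) : Sym2 ι) = s(i, j) := Sym2.eq_swap
          refine ⟨j, i, by rw [h3]; exact hl', ?_, hj⟩
          simpa only [h3] using hl
        · exact ⟨i, j, hl', hl, hi⟩
    obtain ⟨i, j, hij, hξij, hai⟩ := h1
    have hij' : i ≠ j := by simpa using hij
    have hi : Nontrivial (A i) := (hnt i).2 hai
    have h2 : ∀ κ : {i : ι // Nontrivial (A i)} → Bool,
        PV P (Σ i, A i) (GS A (Sum.elim ξ (Function.update κ ⟨i, hi⟩ (!κ ⟨i, hi⟩)))) ↔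
        PV P (Σ i, A i) (GS A (Sum.elim ξ κ)) := by
      have key : ∀ κ κ' : {i : ι // Nontrivial (A i)} → Bool, (∀ k, k ≠ ⟨i, hi⟩ → κ k = κ' k) →
          κ ⟨i, hi⟩ = false → κ' ⟨i, hi⟩ = true →
          (PV P (Σ i, A i) (GS A (Sum.elim ξ κ)) ↔ PV P (Σ i, A i) (GS A (Sum.elim ξ κ'))) := by
        intro κ κ' hκ h0 h1
        rw [PV_iff hP e, PV_iff hP e]
        have hcl : (GS A (Sum.elim ξ κ')).map e.toEmbedding =
            (GS A (Sum.elim ξ κ)).map e.toEmbedding ⊔ cliq {u | π u = i} := by
          ext u v
          rw [SimpleGraph.sup_adj, pve_map_adj, pve_map_adj]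
          rcases hu : e.symm u with ⟨k, x⟩
          rcases hv : e.symm v with ⟨k', y⟩
          have hiu : π u = k := by rw [← he', hu]
          have hjv : π v = k' := by rw [← he', hv]
          by_cases hkk : k = k'
          · subst hkk
            rw [hadjS, hadjS]
            by_cases hki : k = i
            · subst hki
              constructor
              · rintro ⟨h3, -⟩
                refine Or.inr ⟨fun h => h3 ?_, hiu, hjv⟩
                rw [h, hv] at hu
                simpa using hu.symm
              · rintro (⟨h3, h4⟩ | h)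
                · exact ⟨h3, h1⟩
                · refine ⟨fun hxy => h.1 ?_, h1⟩
                  apply e.symm.injective
                  rw [hu, hv, hxy]
            · constructor
              · rintro ⟨h3, h4⟩
                rw [← hκ _ (fun h => hki (congrArg Subtype.val h))] at h4
                exact Or.inl ⟨h3, h4⟩
              · rintro (⟨h3, h4⟩ | h)
                · rw [hκ _ (fun h => hki (congrArg Subtype.val h))] at h4
                  exact ⟨h3, h4⟩
                · exact absurd (hiu.symm.trans h.2.1) hki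
          · rw [hadjC _ _ _ _ hkk, hadjC _ _ _ _ hkk]
            constructor
            · intro h
              exact Or.inl h
            · rintro (h | h)
              · exact h
              · exact absurd (hiu.symm.trans (h.2.1.trans (h.2.2.symm.trans hjv))) hkk
        rw [hcl]
        constructor
        · intro h
          exact hP.mono _ _ le_sup_left h
        · intro h
          refine htw _ {u | π u = i} ?_ ?_ h
          · intro u hu v hv w huw
            rw [pve_map_adj] at huw ⊢
            rcases hu' : e.symm u with ⟨k, x⟩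
            rcases hv' : e.symm v with ⟨k', y⟩
            rcases hw' : e.symm w with ⟨l, z⟩
            have hiu : π u = k := by rw [← he', hu']
            have hjv : π v = k' := by rw [← he', hv']
            have hk : k = i := hiu.symm.trans hu
            have hk' : k' = i := hjv.symm.trans hv
            subst hk hk'
            rw [hu', hw'] at huw
            by_cases hkl : k' = l
            · subst hkl
              rw [hadjS] at huw
              obtain ⟨h3, h4⟩ := huw
              rw [h0] at h4
              cases h4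
            · rw [hadjC _ _ _ _ hkl] at huw ⊢
              exact huw
          · refine ⟨e ⟨i, 0⟩, he _, e ⟨j, 0⟩, ?_⟩
            rw [pve_map_adj, Equiv.symm_apply_apply, Equiv.symm_apply_apply]
            rw [hadjC _ _ _ _ hij']
            exact hξij
      intro κ
      cases hk : κ ⟨i, hi⟩
      · exact (key κ _ (fun k hk' => by rw [Function.update_of_ne hk']) hk
          (by rw [Function.update_self]; rfl)).symm
      · exact key _ κ (fun k hk' => by rw [Function.update_of_ne hk'])
          (by rw [Function.update_self]; rfl) hk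
    have h3 : ∀ κ : {i : ι // Nontrivial (A i)} → Bool, sgn (Sum.elim ξ κ) *
        bit (PV P (Σ i, A i) (GS A (Sum.elim ξ κ))) =
        sgn ξ * (sgn κ * bit (PV P (Σ i, A i) (GS A (Sum.elim ξ κ)))) := by
      intro κ
      rw [sgn_sum (Sum.elim ξ κ)]
      simp only [Sum.elim_inl, Sum.elim_inr]
      ring
    rw [Finset.sum_congr rfl fun κ _ => h3 κ, ← Finset.mul_sum,
      toggle_zero (fun κ => bit (PV P (Σ i, A i) (GS A (Sum.elim ξ κ)))) ⟨i, hi⟩
        (fun κ => bit_congr (h2 κ)), mul_zero]
  · intro h
    exact absurd (Finset.mem_univ _) h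

end Pool.Agent.W99.Tw
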