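import Pool.Agent.W99.Tw.Cover

set_option autoImplicit false

/-!
MP_257582_lc. Properties that hold for all graphs without isolated vertices; many parts.
-/

namespace Pool.Agent.W99.Tw

open Finset
open Pool.Agent.H119R2.Kp (GP PV pve_map_adj)
open Pool.Agent.H119R2.Kp.RelAux (PV_iff)
open Pool.Agent.TH669.KP (GR GR_adj sgn bit bit_pos bit_neg bit_congr sum_sgn)
open Pool.Agent.W99.Dom (Vx Xl Dl dl adj_N relation0 wt Dm ore)

theorem no_isolated {n q : ℕ} {P : SimpleGraph (Fin n) → Prop} (hn : 2 ≤ n) (hP : GP n q P)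
    (hq : q < n.choose 2) (h1 : ∀ G : SimpleGraph (Fin n), (∀ v, ∃ w, G.Adj v w) → P G)
    (h0 : ¬ P ⊥) : False := by
  classical
  have hN0 : NeZero n := ⟨by omega⟩
  have hcard : Fintype.card (Vx 0 n 0) = n := by
    simp only [Fintype.card_sum, Fintype.card_fin, Fintype.card_prod, ZMod.card,
      Fintype.card_bool]
    omega
  let e0 : Vx 0 n 0 ≃ Fin n := Fintype.equivFinOfCardEq hcard
  have hr := relation0 0 n 0 hP (by omega) hq
  have hne : Nonempty (Dl n) := by
    have h1 : (1 : ZMod n) ≠ 0 := by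
      have : Fact (1 < n) := ⟨by omega⟩
      exact one_ne_zero
    exact ⟨⟨s(1, -1), 1, h1, rfl⟩⟩
  have hX : IsEmpty (Xl 0 0) := by
    refine ⟨fun l => ?_⟩
    obtain ⟨l, hl⟩ := l
    induction l using Sym2.ind with
    | _ p r =>
      rcases p with i | (_ | u)
      · exact i.elim0
      · rcases r with i | (_ | u)
        · exact i.elim0
        · exact hl (by simp)
        · exact u.elim0
      · exact u.elim0
  have hvert : ∀ v : Vx 0 n 0, ∃ z, v = .inr (.inl z) := by
    rintro (⟨i, x⟩ | (z | u))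
    · exact i.elim0
    · exact ⟨z, rfl⟩
    · exact u.elim0
  have h2 : ∀ (ξ : Xl 0 0 → Bool) (κ : Dl n → Bool), sgn ξ * sgn κ *
      ∑ I : Fin 0 → (Fin 3 → Bool), (∏ i, wt (I i)) *
        bit (PV P (Vx 0 n 0) (Pool.Agent.W99.Dom.GI 0 n 0 ξ κ I)) =
      sgn κ - (if κ = (fun _ => false) then 1 else 0) := by
    intro ξ κ
    rw [Fintype.sum_subsingleton _ (fun i : Fin 0 => i.elim0)]
    simp only [Finset.univ_eq_empty, Finset.prod_empty, one_mul]
    have h2 : sgn ξ = 1 := by
      unfold sgn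
      simp
    rw [h2, one_mul]
    by_cases hκ : κ = fun _ => false
    · rw [if_pos hκ, bit_neg]
      · have h3 : sgn κ = 1 := by
          rw [hκ]
          unfold sgn
          simp
        rw [h3]
        norm_num
      · rw [PV_iff hP e0]
        intro h4
        apply h0
        convert h4
        ext u v
        rw [pve_map_adj]
        constructor
        · intro h
          exact h.elim
        · intro h
          obtain ⟨z, hz⟩ := hvert (e0.symm u)
          obtain ⟨z', hz'⟩ := hvert (e0.symm v)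
          rw [hz, hz', adj_N] at h
          obtain ⟨_, h5⟩ := h
          rw [hκ] at h5
          cases h5
    · rw [if_neg hκ, bit_pos]
      · ring
      · obtain ⟨l, hl⟩ : ∃ l, κ l = true := by
          by_contra hcon
          push Not at hcon
          exact hκ (funext fun l => by simpa using hcon l)
        obtain ⟨l, d, hd, rfl⟩ := l
        refine ⟨e0, h1 _ fun v => ?_⟩
        obtain ⟨z, hz⟩ := hvert (e0.symm v)
        refine ⟨e0 (.inr (.inl (z - d))), ?_⟩
        rw [pve_map_adj, Equiv.symm_apply_apply, hz, adj_N]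
        have h10 : z - (z - d) ≠ 0 := by
          rw [sub_sub_cancel]
          exact hd
        refine ⟨h10, ?_⟩
        have h12 : dl n (z - (z - d)) h10 = ⟨s(d, -d), d, hd, rfl⟩ := by
          unfold dl
          refine Subtype.ext ?_
          simp
        rw [h12]
        exact hl
  simp only [h2] at hr
  rw [Finset.sum_const, Finset.sum_sub_distrib, sum_sgn, Finset.sum_ite_eq' univ,
    if_pos (Finset.mem_univ _)] at hr
  simp at hr

theorem near_bot {V : Type} {r : ℕ∞} {u v : V} (h : Near (⊥ : SimpleGraph V) r u v) : u = v := by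
  obtain ⟨p, -⟩ := h
  cases p with
  | nil => rfl
  | cons h p => exact h.elim

theorem CovB.not_bot {n k : ℕ} {r : ℕ∞} (hk : k < n) :
    ¬ CovB r k (⊥ : SimpleGraph (Fin n)) := by
  rintro ⟨D, hD, h⟩
  have h1 : D = univ := by
    ext v
    obtain ⟨w, hw, h2⟩ := h v
    have h3 := near_bot h2
    subst h3
    simp [hw]
  rw [h1, Finset.card_univ, Fintype.card_fin] at hD
  omega

theorem CovD.not_bot {n k : ℕ} {r : ℕ∞} (hk : k < n) :
    ¬ CovD r k (⊥ : SimpleGraph (Fin n)) := by
  rintro ⟨f, h⟩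
  have h1 : Function.Injective f := fun u v huv => near_bot (h u v huv)
  have h2 := Fintype.card_le_of_injective f h1
  simp only [Fintype.card_fin] at h2
  omega

theorem CovB.of_dom {n k : ℕ} {r : ℕ∞} (hr : 2 ≤ r) {G : SimpleGraph (Fin n)} (h : Dm k G) :
    CovB r k G := by
  obtain ⟨D, hD, h⟩ := h
  refine ⟨D, hD, fun v => ?_⟩
  rcases h v with h1 | ⟨w, hw, h1⟩
  · exact ⟨v, h1, SimpleGraph.Walk.nil, by simp⟩
  · refine ⟨w, hw, SimpleGraph.Walk.cons h1 SimpleGraph.Walk.nil, ?_⟩
    refine le_trans ?_ hr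
    simp [SimpleGraph.Walk.length_cons]

theorem CovD.of_dom {n k : ℕ} {r : ℕ∞} (hr : 2 ≤ r) {G : SimpleGraph (Fin n)} (h : Dm k G) :
    CovD r k G := by
  classical
  obtain ⟨D, hD, h⟩ := h
  have h1 : ∀ v : Fin n, ∃ w : D, v = (w : Fin n) ∨ G.Adj (w : Fin n) v := by
    intro v
    rcases h v with h1 | ⟨w, hw, h1⟩
    · exact ⟨⟨v, h1⟩, Or.inl rfl⟩
    · exact ⟨⟨w, hw⟩, Or.inr h1⟩
  choose g hg using h1
  let e : D ≃ Fin D.card := Fintype.equivFinOfCardEq (by simp)
  refine ⟨fun v => Fin.castLE hD (e (g v)), fun u v huv => ?_⟩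
  have h2 : g u = g v := e.injective (Fin.castLE_injective hD huv)
  have one : ∀ a b : Fin n, G.Adj a b → Near G r a b := by
    intro a b hab
    refine ⟨SimpleGraph.Walk.cons hab SimpleGraph.Walk.nil, ?_⟩
    refine le_trans ?_ hr
    simp [SimpleGraph.Walk.length_cons]
  rcases hg u with h3 | h3 <;> rcases hg v with h4 | h4
  · rw [h3, h4, h2]
    exact ⟨SimpleGraph.Walk.nil, by simp⟩
  · rw [h3, h2]
    exact one _ _ h4
  · rw [h4, ← h2]
    exact one _ _ h3.symm
  · rw [← h2] at h4
    refine ⟨SimpleGraph.Walk.cons h3.symm (SimpleGraph.Walk.cons h4 SimpleGraph.Walk.nil), ?_⟩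
    simpa [SimpleGraph.Walk.length_cons] using hr

/-- both families: sums of `k` powers of a prime -/
theorem cover_rep {n k q p : ℕ} [Fact p.Prime] {r : ℕ∞} (hr : 2 ≤ r) (hkn : k < n) {ι : Type}
    [Fintype ι] [DecidableEq ι] (a : ι → ℕ) (hι : Fintype.card ι = k) (hsum : ∑ i, p ^ a i = n)
    (ha : ∀ i j, a i = 0 → a j = 0 → i = j) (hq : q < n.choose 2) :
    ¬ GP n q (fun G => CovB r k G) ∧ ¬ GP n q (fun G => CovD r k G) := by
  classical
  subst hι
  obtain ⟨π, hπ⟩ := exists_part (n := n) (p := p) a hsum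
  have hp : p.Prime := Fact.out
  have hsurj : Function.Surjective π := by
    intro i
    have h1 : 0 < Fintype.card {x // π x = i} := by
      rw [hπ]
      exact pow_pos hp.pos _
    obtain ⟨x, hx⟩ := Fintype.card_pos_iff.1 h1
    exact ⟨x, hx⟩
  have h2 : ∀ i, a i ≠ 0 → 2 ≤ Fintype.card {x // π x = i} := by
    intro i hi
    rw [hπ]
    exact Nat.one_lt_pow hi hp.one_lt
  constructor
  · intro hP
    exact crit π a hπ ha hP hq (CovB.twin hr) (CovB.clique hr hsurj)
      (fun i hi => CovB.not_clique i hsurj (h2 i hi))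
  · intro hP
    exact crit π a hπ ha hP hq (CovD.twin hr) (CovD.clique hr)
      (fun i hi => CovD.not_clique i hsurj (h2 i hi))

theorem cover_all {n k q : ℕ} {r : ℕ∞} (hr : 2 ≤ r) (hkn : k < n)
    (hk : (Nat.digits 2 n).sum ≤ k) (hq : q < n.choose 2) :
    ¬ GP n q (fun G => CovB r k G) ∧ ¬ GP n q (fun G => CovD r k G) := by
  rcases Nat.lt_or_ge (n + 1) (2 * k) with h | h
  · have hk0 : 2 ≤ n := by omega
    constructor
    · intro hP
      exact no_isolated hk0 hP hq
        (fun G hG => CovB.of_dom hr (ore G hG (by rw [Fintype.card_fin]; omega)))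
        (CovB.not_bot hkn)
    · intro hP
      exact no_isolated hk0 hP hq
        (fun G hG => CovD.of_dom hr (ore G hG (by rw [Fintype.card_fin]; omega)))
        (CovD.not_bot hkn)
  · obtain ⟨ι, _, _, a, h1, h2, h3⟩ := rep_all n k hk h
    have : Fact (Nat.Prime 2) := ⟨Nat.prime_two⟩
    exact cover_rep (p := 2) hr hkn a h1 h2 h3 hq

end Pool.Agent.W99.Tw
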