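import Pool.Agent.TH669.KP.Orb
import Pool.Agent.H119R2.Kp.PVE

set_option autoImplicit false
set_option linter.unusedSectionVars false

/-!
MP_257582_lc. The vertex set is a disjoint union of finite groups `A i` of exponent dividing `p`, each
with an automorphism `c i` whose powers act transitively on the nonzero elements. The group is
generated by all translations and the product of the automorphisms.
-/

namespace Pool.Agent.W99.Tw

open Finset
open Pool.Agent.H119R2.Kp (GP PV)
open Pool.Agent.TH669.KP (GR GR_adj rel_orb sgn bit)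

/-- a group of exponent dividing `p` with `q` elements and a transitive automorphism -/
structure Blk (p q : ℕ) where
  A : Type
  grp : AddCommGroup A
  fin : Fintype A
  dec : DecidableEq A
  c : A ≃+ A
  card : Fintype.card A = q
  tors : ∀ x : A, p • x = 0
  trans : ∀ x y : A, x ≠ 0 → y ≠ 0 → ∃ k : ℕ, c^[k] x = y

theorem exists_blk (p a : ℕ) [hp : Fact p.Prime] : Nonempty (Blk p (p ^ a)) := by
  classical
  by_cases ha : a = 0
  · subst ha
    exact ⟨{ A := PUnit
             grp := inferInstance
             fin := inferInstance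
             dec := inferInstance
             c := AddEquiv.refl _
             card := by simp
             tors := fun _ => rfl
             trans := fun x y hx _ => absurd rfl hx }⟩
  · have : Fintype (GaloisField p a) := Fintype.ofFinite _
    obtain ⟨g, hg⟩ := IsCyclic.exists_generator (α := (GaloisField p a)ˣ)
    let c : GaloisField p a ≃+ GaloisField p a :=
      { toFun := fun x => g * x
        invFun := fun x => (g⁻¹ : (GaloisField p a)ˣ) * x
        left_inv := fun x => by
          show ((g⁻¹ : (GaloisField p a)ˣ) : GaloisField p a) * (g * x) = x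
          rw [← mul_assoc, Units.inv_mul, one_mul]
        right_inv := fun x => by
          show (g : GaloisField p a) * (((g⁻¹ : (GaloisField p a)ˣ) : GaloisField p a) * x) = x
          rw [← mul_assoc, Units.mul_inv, one_mul]
        map_add' := fun x y => mul_add _ _ _ }
    have hc : ∀ (k : ℕ) (x : GaloisField p a), c^[k] x = (g : GaloisField p a) ^ k * x := by
      intro k x
      induction k with
      | zero => simp
      | succ k ih =>
        rw [Function.iterate_succ_apply', ih]
        show (g : GaloisField p a) * _ = _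
        rw [pow_succ']
        ring
    refine ⟨{ A := GaloisField p a
              grp := inferInstance
              fin := inferInstance
              dec := inferInstance
              c := c
              card := ?_
              tors := ?_
              trans := ?_ }⟩
    · rw [← Nat.card_eq_fintype_card]
      exact GaloisField.card p a ha
    · intro x
      rw [nsmul_eq_mul, CharP.cast_eq_zero, zero_mul]
    · intro x y hx hy
      have h1 := hg (Units.mk0 (y / x) (div_ne_zero hy hx))
      rw [← mem_powers_iff_mem_zpowers, Submonoid.mem_powers_iff] at h1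
      obtain ⟨k, hk⟩ := h1
      refine ⟨k, ?_⟩
      rw [hc]
      have h2 := congrArg Units.val hk
      rw [Units.val_pow_eq_pow_val, Units.val_mk0] at h2
      rw [h2, div_mul_cancel₀ _ hx]

variable {ι : Type} (A : ι → Type)

/-- the orbits of pairs: pairs of parts, and nontrivial parts -/
abbrev Jl : Type := {e : Sym2 ι // ¬ e.IsDiag} ⊕ {i : ι // Nontrivial (A i)}

variable [DecidableEq ι] [∀ i, DecidableEq (A i)]

/-- the orbit of a pair -/
def orbS (v w : Σ i, A i) : Option (Jl A) :=
  if h : v.1 = w.1 then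
    if h' : v = w then none
    else some (.inr ⟨v.1, ⟨v.2, h ▸ w.2, fun h2 => h' (by
      obtain ⟨i, x⟩ := v
      obtain ⟨j, y⟩ := w
      simp only at h
      subst h
      simp only at h2
      rw [h2])⟩⟩)
  else some (.inl ⟨s(v.1, w.1), by simpa using h⟩)

theorem orbS_same {i : ι} {x y : A i} (h : x ≠ y) :
    orbS A ⟨i, x⟩ ⟨i, y⟩ = some (.inr ⟨i, ⟨x, y, h⟩⟩) := by
  unfold orbS
  rw [dif_pos rfl, dif_neg]
  intro h2
  apply h
  simpa using h2

theorem orbS_cross {v w : Σ i, A i} (h : v.1 ≠ w.1) :
    orbS A v w = some (.inl ⟨s(v.1, w.1), by simpa using h⟩) := by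
  unfold orbS
  rw [dif_neg h]

theorem orbS_self (v : Σ i, A i) : orbS A v v = none := by
  unfold orbS
  rw [dif_pos rfl, dif_pos rfl]

theorem orbS_symm (v w : Σ i, A i) : orbS A v w = orbS A w v := by
  by_cases h : v.1 = w.1
  · obtain ⟨i, x⟩ := v
    obtain ⟨j, y⟩ := w
    simp only at h
    subst h
    by_cases hxy : x = y
    · subst hxy; rfl
    · rw [orbS_same A hxy, orbS_same A (Ne.symm hxy)]
  · rw [orbS_cross A h, orbS_cross A (Ne.symm h)]
    simp only [Option.some.injEq, Sum.inl.injEq, Subtype.mk.injEq]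
    exact Sym2.eq_swap

theorem orbS_ne_none (v w : Σ i, A i) (h : v ≠ w) : orbS A v w ≠ none := by
  by_cases h1 : v.1 = w.1
  · obtain ⟨i, x⟩ := v
    obtain ⟨j, y⟩ := w
    simp only at h1
    subst h1
    have hxy : x ≠ y := fun h2 => h (by rw [h2])
    rw [orbS_same A hxy]
    simp
  · rw [orbS_cross A h1]
    simp

variable [∀ i, AddCommGroup (A i)] (c : ∀ i, A i ≃+ A i)

theorem orbS_exists (j : Jl A) : ∃ v w, orbS A v w = some j := by
  rcases j with j | ⟨i, hi⟩
  · obtain ⟨e, he⟩ := j
    induction e using Sym2.ind with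
    | _ p q =>
      have hpq : ¬ p = q := by simpa using he
      exact ⟨⟨p, 0⟩, ⟨q, 0⟩, orbS_cross A hpq⟩
  · obtain ⟨x, y, hxy⟩ := hi
    exact ⟨⟨i, x⟩, ⟨i, y⟩, orbS_same A hxy⟩

/-- translations -/
def tr (τ : ∀ i, A i) : Equiv.Perm (Σ i, A i) where
  toFun v := ⟨v.1, v.2 + τ v.1⟩
  invFun v := ⟨v.1, v.2 - τ v.1⟩
  left_inv v := by simp
  right_inv v := by simp

/-- the product of the automorphisms -/
def cS : Equiv.Perm (Σ i, A i) where
  toFun v := ⟨v.1, c v.1 v.2⟩
  invFun v := ⟨v.1, (c v.1).symm v.2⟩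
  left_inv v := by simp
  right_inv v := by simp

theorem tr_apply (τ : ∀ i, A i) (i : ι) (x : A i) : tr A τ ⟨i, x⟩ = ⟨i, x + τ i⟩ := rfl

theorem cS_apply (i : ι) (x : A i) : cS A c ⟨i, x⟩ = ⟨i, c i x⟩ := rfl

theorem cS_pow (k : ℕ) (i : ι) (x : A i) : (cS A c ^ k) ⟨i, x⟩ = ⟨i, (c i)^[k] x⟩ := by
  induction k with
  | zero => rfl
  | succ k ih =>
    rw [pow_succ', Equiv.Perm.mul_apply, ih, cS_apply, Function.iterate_succ_apply']

theorem tr_comm (τ τ' : ∀ i, A i) : tr A τ * tr A τ' = tr A τ' * tr A τ := by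
  ext v : 1
  obtain ⟨i, x⟩ := v
  simp only [Equiv.Perm.mul_apply, tr_apply]
  congr 1
  abel

theorem tr_pow (τ : ∀ i, A i) (k : ℕ) (i : ι) (x : A i) :
    (tr A τ ^ k) ⟨i, x⟩ = ⟨i, x + k • τ i⟩ := by
  induction k with
  | zero => simp
  | succ k ih =>
    rw [pow_succ', Equiv.Perm.mul_apply, ih, tr_apply]
    congr 1
    rw [succ_nsmul]
    abel

theorem cS_conj (τ : ∀ i, A i) :
    (cS A c)⁻¹ * tr A τ * cS A c = tr A (fun i => (c i).symm (τ i)) := by
  rw [mul_assoc, inv_mul_eq_iff_eq_mul]
  ext v : 1
  obtain ⟨i, x⟩ := v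
  simp only [Equiv.Perm.mul_apply, tr_apply, cS_apply, map_add, AddEquiv.apply_symm_apply]

theorem orbS_tr (τ : ∀ i, A i) (v w : Σ i, A i) :
    orbS A (tr A τ v) (tr A τ w) = orbS A v w := by
  by_cases h : v.1 = w.1
  · obtain ⟨i, x⟩ := v
    obtain ⟨j, y⟩ := w
    simp only at h
    subst h
    rw [tr_apply, tr_apply]
    by_cases hxy : x = y
    · subst hxy
      rw [orbS_self, orbS_self]
    · rw [orbS_same A hxy, orbS_same A (fun h => hxy (add_right_cancel h))]
  · rw [orbS_cross A h, orbS_cross A (v := tr A τ v) (w := tr A τ w) h]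
    rfl

theorem orbS_cS (v w : Σ i, A i) : orbS A (cS A c v) (cS A c w) = orbS A v w := by
  by_cases h : v.1 = w.1
  · obtain ⟨i, x⟩ := v
    obtain ⟨j, y⟩ := w
    simp only at h
    subst h
    rw [cS_apply, cS_apply]
    by_cases hxy : x = y
    · subst hxy
      rw [orbS_self, orbS_self]
    · rw [orbS_same A hxy, orbS_same A (fun h => hxy ((c i).injective h))]
  · rw [orbS_cross A h, orbS_cross A (v := cS A c v) (w := cS A c w) h]
    rfl

/-- the group -/
abbrev Gr : Subgroup (Equiv.Perm (Σ i, A i)) :=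
  Subgroup.closure (insert (cS A c) (Set.range (tr A)))

theorem tr_mem (τ : ∀ i, A i) : tr A τ ∈ Gr A c :=
  Subgroup.subset_closure (Set.mem_insert_of_mem _ (Set.mem_range_self τ))

theorem cS_mem : cS A c ∈ Gr A c := Subgroup.subset_closure (Set.mem_insert _ _)

theorem orbS_trans (htr : ∀ i, ∀ x y : A i, x ≠ 0 → y ≠ 0 → ∃ k : ℕ, (c i)^[k] x = y)
    (j : Jl A) (v w v' w' : Σ i, A i) (h : orbS A v w = some j) (h' : orbS A v' w' = some j) :
    ∃ g ∈ Gr A c, (g v = v' ∧ g w = w') ∨ (g v = w' ∧ g w = v') := by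
  have cross : ∀ v w v' w' : Σ i, A i, v.1 = v'.1 → w.1 = w'.1 → v.1 ≠ w.1 →
      ∃ g ∈ Gr A c, g v = v' ∧ g w = w' := by
    rintro ⟨i, x⟩ ⟨j, y⟩ ⟨i', x'⟩ ⟨j', y'⟩ h1 h2 h3
    simp only at h1 h2 h3
    subst h1 h2
    refine ⟨tr A (Pi.single i (x' - x) + Pi.single j (y' - y)), tr_mem A c _, ?_, ?_⟩
    · rw [tr_apply, Pi.add_apply, Pi.single_eq_same, Pi.single_eq_of_ne h3]
      congr 1
      abel
    · rw [tr_apply, Pi.add_apply, Pi.single_eq_same, Pi.single_eq_of_ne (Ne.symm h3)]
      congr 1
      abel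
  by_cases h1 : v.1 = w.1
  · obtain ⟨i, x⟩ := v
    obtain ⟨i2, y⟩ := w
    simp only at h1
    subst h1
    by_cases hxy : x = y
    · subst hxy
      rw [orbS_self] at h
      cases h
    rw [orbS_same A hxy] at h
    simp only [Option.some.injEq] at h
    subst h
    by_cases h2 : v'.1 = w'.1
    · obtain ⟨i', x'⟩ := v'
      obtain ⟨i2', y'⟩ := w'
      simp only at h2
      subst h2
      by_cases hxy' : x' = y'
      · subst hxy'
        rw [orbS_self] at h'
        cases h'
      rw [orbS_same A hxy'] at h'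
      simp only [Option.some.injEq, Sum.inr.injEq, Subtype.mk.injEq] at h'
      subst h'
      obtain ⟨k, hk⟩ := htr i' (x - y) (x' - y') (sub_ne_zero.2 hxy) (sub_ne_zero.2 hxy')
      have hk2 : (c i')^[k] x - (c i')^[k] y = x' - y' := by
        rw [← hk]
        have : ∀ k : ℕ, ∀ a b : A i', (c i')^[k] (a - b) = (c i')^[k] a - (c i')^[k] b := by
          intro k
          induction k with
          | zero => intro a b; rfl
          | succ k ih =>
            intro a b
            rw [Function.iterate_succ_apply, Function.iterate_succ_apply,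
              Function.iterate_succ_apply, map_sub, ih]
        rw [this]
      refine ⟨tr A (Pi.single i' (x' - (c i')^[k] x)) * cS A c ^ k,
        Subgroup.mul_mem _ (tr_mem A c _) (Subgroup.pow_mem _ (cS_mem A c) k), Or.inl ⟨?_, ?_⟩⟩
      · rw [Equiv.Perm.mul_apply, cS_pow, tr_apply, Pi.single_eq_same]
        congr 1
        abel
      · rw [Equiv.Perm.mul_apply, cS_pow, tr_apply, Pi.single_eq_same]
        congr 1
        have : y' = x' - (x' - y') := by abel
        rw [this, ← hk2]
        abel
    · rw [orbS_cross A h2] at h'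
      simp at h'
  · rw [orbS_cross A h1] at h
    simp only [Option.some.injEq] at h
    subst h
    by_cases h2 : v'.1 = w'.1
    · exfalso
      obtain ⟨i', x'⟩ := v'
      obtain ⟨i2', y'⟩ := w'
      simp only at h2
      subst h2
      by_cases hxy' : x' = y'
      · subst hxy'
        rw [orbS_self] at h'
        cases h'
      rw [orbS_same A hxy'] at h'
      simp at h'
    · rw [orbS_cross A h2] at h'
      simp only [Option.some.injEq, Sum.inl.injEq, Subtype.mk.injEq, Sym2.eq_iff] at h'
      rcases h' with ⟨h3, h4⟩ | ⟨h3, h4⟩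
      · obtain ⟨g, hg, h5⟩ := cross v w v' w' h3.symm h4.symm h1
        exact ⟨g, hg, Or.inl h5⟩
      · obtain ⟨g, hg, h5⟩ := cross v w w' v' h4.symm h3.symm h1
        exact ⟨g, hg, Or.inr h5⟩

end Pool.Agent.W99.Tw
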